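import Pool.Agent.H182.CocWin

/-!
# Cocyclic Hadamard matrices of order `2 ^ t * |G|`, `t ≥ C ^ (1 + log* |G|)`

A cocyclic Hadamard matrix over a finite group `E` is a Hadamard matrix `[ψ (a, b)]`, `a, b ∈ E`,
where `ψ` is a cocycle of `E` with values `1` and `-1` (de Launey, Horadam). There is a constant `C`
such that for every finite group `G` which is built from the trivial group by `r` cyclic windows of
length at most `2 ↑↑ k` (the power tower of `k` twos; `r = 1` for a cyclic group, and `r = Ω (|G|)`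
windows suffice for a solvable group), for every `m ≥ C ^ (k + 1) * r`, every group `A` of order
`4 ^ m` and every `s ≥ 2 * m` there is a cocyclic Hadamard matrix over `Z_2 ^ s × A × G`; for
`A = Z_2 ^ (2 m)` this is the group `Z_2 ^ t × G`, `t ≥ 4 * m` arbitrary.

Construction. The `log*` theorem of the library gives para-unitary sign matrix polynomials, and
these give `W`, a matrix of size `K = 2 ^ m` over the group ring of `G`, all coefficients `1` or
`-1`, with `W * Wᴴ = K * |G|`. Choose `K` elements `α x` and `K` elements `β z` of `A` such that the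
products `α x * β z` are all different, and let `D`, `D'` be the diagonal matrices of the `α x` and
of the `β z`. Then the entries of `D * W * D'` have disjoint supports. If `H` is the matrix
`(-1) ^ (x · y)`, the element `K * H * D * W * D'` of the matrix algebra over the group ring has all
its coefficients equal to `1` or `-1` in the basis of the matrices `X ^ a * Z ^ b` (Pauli matrices,
`a, b ∈ Z_2 ^ m`), and this is the basis of a twisted group ring of `Z_2 ^ (2 m)`.
-/

set_option autoImplicit false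

namespace Pool.Agent.Results.MP_d8b1b3_co.CocyclicLogStar

open Finset Pool.Agent.H182.Coc

/-- **Main theorem.** There is a constant `C` such that for all finite groups `G`, `A` and all
`k, r, m, s` such that `G` is built by `r` cyclic windows of length at most `2 ↑↑ k`,
`m ≥ C ^ (k + 1) * r`, `|A| = 4 ^ m` and `s ≥ 2 * m`, there is a cocycle `ψ` of the group
`Z_2 ^ s × A × G` with values `1` and `-1` such that `[ψ (a, b)]` is a Hadamard matrix. -/
theorem result : ∃ C : ℕ, ∀ (G A : Type) [Group G] [Fintype G] [Group A] [Fintype A]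
    (k r m s : ℕ), Windows ((fun x : ℕ => 2 ^ x)^[k] 1) r G → C ^ (k + 1) * r ≤ m →
    Fintype.card A = 4 ^ m → 2 * m ≤ s →
    ∃ ψ : Multiplicative (Fin s → ZMod 2) × A × G → Multiplicative (Fin s → ZMod 2) × A × G → ℤ,
      (∀ a b, ψ a b = 1 ∨ ψ a b = -1) ∧
      (∀ a b c, ψ a b * ψ (a * b) c = ψ b c * ψ a (b * c)) ∧
      ∀ a b, a ≠ b → ∑ c, ψ a c * ψ b c = 0 := by
  obtain ⟨C, h⟩ := main
  exact ⟨C, fun G A _ _ _ _ k r m s h1 h2 h3 h4 => h G A k r m s h1 h2 h3 h4⟩

/-- The special case of the cyclic groups: a cocyclic Hadamard matrix over `Z_2 ^ t × Z_q`, hence of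
order `2 ^ t * q`, for all `q > 0` and all `t ≥ C ^ (1 + log* q)`. -/
theorem cyclic_case : ∃ C : ℕ, ∀ k q t : ℕ, ∀ _ : NeZero q, q ≤ (fun x : ℕ => 2 ^ x)^[k] 1 →
    C ^ (k + 1) ≤ t → OrthCocycle (Multiplicative (Fin t → ZMod 2) × Multiplicative (ZMod q)) := by
  obtain ⟨C, h⟩ := main
  refine ⟨4 * C, ?_⟩
  intro k q t _ hq ht
  have h1 : Windows (Fintype.card (Multiplicative (ZMod q))) 1 (Multiplicative (ZMod q)) :=
    Windows.cyclic _
  rw [Fintype.card_multiplicative, ZMod.card] at h1
  have h2 : 4 * C ^ (k + 1) ≤ t := by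
    refine le_trans ?_ ht
    rw [mul_pow]
    refine Nat.mul_le_mul_right _ ?_
    calc 4 = 4 ^ 1 := (pow_one 4).symm
      _ ≤ 4 ^ (k + 1) := Nat.pow_le_pow_right (by norm_num) (by omega)
  obtain ⟨s, rfl⟩ := Nat.exists_eq_add_of_le h2
  have hA : Fintype.card (Multiplicative (Fin (2 * C ^ (k + 1)) → ZMod 2)) = 4 ^ (C ^ (k + 1)) := by
    rw [Fintype.card_multiplicative, Fintype.card_fun, ZMod.card, Fintype.card_fin, pow_mul]
    norm_num
  have h3 := h (Multiplicative (ZMod q)) (Multiplicative (Fin (2 * C ^ (k + 1)) → ZMod 2)) k 1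
    (C ^ (k + 1)) (2 * C ^ (k + 1) + s) (h1.mono hq) (by rw [mul_one]) hA (Nat.le_add_right _ _)
  have h4 : Module.finrank (ZMod 2) ((Fin (2 * C ^ (k + 1) + s) → ZMod 2) ×
      (Fin (2 * C ^ (k + 1)) → ZMod 2)) =
      Module.finrank (ZMod 2) (Fin (4 * C ^ (k + 1) + s) → ZMod 2) := by
    rw [Module.finrank_prod, Module.finrank_fin_fun, Module.finrank_fin_fun,
      Module.finrank_fin_fun]
    ring
  let e : Multiplicative (Fin (2 * C ^ (k + 1) + s) → ZMod 2) ×
      Multiplicative (Fin (2 * C ^ (k + 1)) → ZMod 2) ≃*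
      Multiplicative (Fin (4 * C ^ (k + 1) + s) → ZMod 2) :=
    (MulEquiv.prodMultiplicative _ _).symm.trans
      (AddEquiv.toMultiplicative (LinearEquiv.ofFinrankEq _ _ h4).toAddEquiv)
  exact OrthCocycle.congr (MulEquiv.prodAssoc.symm.trans
    (MulEquiv.prodCongr e (MulEquiv.refl _))) h3

end Pool.Agent.Results.MP_d8b1b3_co.CocyclicLogStar
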