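import Pool.Agent.H182.ModMain
import Pool.Agent.H182.MPX

/-!
# Modular Hadamard matrices of all orders above a power of the modulus

An `m`-modular Hadamard matrix of order `n` is an `n × n` sign matrix whose distinct rows have
inner products divisible by `m` (for `m > n` this is a Hadamard matrix).  There are an absolute
constant `C` and numbers `N(m)` such that an `m`-modular Hadamard matrix of order `n` exists for
all `m` and `n`, `4 ∣ n`, with `n ≥ m ^ C`, except possibly when `n ≡ 4 (mod 8)`, `8 ∣ m` and `m`
shares factors with both `n - 1` and `n / 2 - 1`; and then it exists if `n ≥ N(m)`.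

The base matrices have order a product of two numbers of Paley type.  A Hadamard matrix
`G₁ ⊗ (G₂ diag(f_i))` of order `h₁ h₂`, in which the diagonal sign matrix `diag(f_i)` may depend on
the block row, contains every prescribed pattern of size `min (h₁, h₂)`; for the orders
`8 (mod 16)` the first factor is a symmetric conference matrix, and for the moduli `4 m'` the block
columns are paired so that all row products agree.  The pattern is a weighing matrix
`W(4 t, k)`, `t` odd and `t ≤ k ^ 12`, from a Williamson array of symmetric weighing matrices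
`W(q² + q + 1, q²)` and Lagrange's four squares; the matrix is then blown up along it.  The
residues of the two factors are prescribed by Linnik's theorem.
-/

namespace Pool.Agent.Results.MP_d8b1b3_co.ModularHadamardPowerOrders

theorem result : ∃ C : ℕ, ∀ m : ℕ, 0 < m → ∃ N : ℕ, ∀ n : ℕ, 4 ∣ n →
    (N ≤ n ∨ (m ^ C ≤ n ∧
      (8 ∣ n ∨ ¬ 8 ∣ m ∨ Nat.Coprime (n - 1) m ∨ Nat.Coprime (n / 2 - 1) m))) →
    ∃ H : Matrix (Fin n) (Fin n) ℤ, (∀ i j, H i j = 1 ∨ H i j = -1) ∧
      ∀ i j, i ≠ j → (m : ℤ) ∣ (H * H.transpose) i j := by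
  obtain ⟨C, hC⟩ := Pool.Agent.H182.MP.partf
  refine ⟨C, fun m hm => ?_⟩
  obtain ⟨N, hN⟩ := Pool.Agent.H182.Mod.modular_complete m hm
  refine ⟨N, fun n h4 hor => ?_⟩
  rcases hor with h | ⟨h1, h2⟩
  · exact hN n h h4
  · rcases (by omega : m = 1 ∨ 2 ≤ m) with h3 | h3
    · refine ⟨fun _ _ => 1, fun _ _ => Or.inl rfl, fun i j _ => ?_⟩
      rw [h3, Nat.cast_one]
      exact one_dvd _
    · exact hC m n h3 h4 h1 h2

end Pool.Agent.Results.MP_d8b1b3_co.ModularHadamardPowerOrders
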