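import Pool.Agent.H182.PHMain

/-!
# Hadamard matrices with all but `n ^ (2 / 3) * log log ... log n` of their rows

For every `m` and every sufficiently large `n` divisible by four there are
`n - n ^ (2 / 3) * log (log ... (log n))` (`m` logarithms) pairwise orthogonal rows of length `n` with
entries `1` and `-1`; for `m = 1` this is `n - n ^ (2 / 3) * log n`.

The matrices are `Q ⊗ 𝒰 + 1 ⊗ 𝒱 + J ⊗ 𝒟` with a skew core `Q` of order `q ≈ n ^ (1 / 3)` and block
matrices `𝒰, 𝒱, 𝒟` over a Sylvester group algebra; the all-ones components are completed by Hadamard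
matrices of multiples of a high power of two, with one exception, which is a Paley matrix of a
prime `p ≈ n ^ (2 / 3)` in the residue class of `n - 1`.
-/

namespace Pool.Agent.Results.MP_d8b1b3_co.PartialHadamardTwoThirds

/-- For every `m` there is `N` such that for all `n ≥ N` divisible by four and all
`k ≤ n - n ^ (2 / 3) * log^[m] n` (`log^[m]` is the `m`-fold iterated logarithm) there is a `k × n`
matrix `M` with entries `1` and `-1` and `M Mᵀ = n I`. -/
theorem result : ∀ m : ℕ, ∃ N : ℕ, ∀ n : ℕ, N ≤ n → 4 ∣ n → ∀ k : ℕ,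
    (k : ℝ) ≤ (n : ℝ) - (n : ℝ) ^ (2 / 3 : ℝ) * (Real.log^[m]) n →
    ∃ M : Matrix (Fin k) (Fin n) ℤ, (∀ i j, M i j = 1 ∨ M i j = -1) ∧
      M * M.transpose = (n : ℤ) • (1 : Matrix (Fin k) (Fin k) ℤ) := by
  intro m
  obtain ⟨N, hN⟩ := Pool.Agent.H182.PH.main3 m
  refine ⟨N, fun n hn h4 k hk => ?_⟩
  obtain ⟨k', hk', hM⟩ := hN n hn h4
  have hle : k ≤ k' := by exact_mod_cast hk.trans hk'
  exact hM.mono hle

end Pool.Agent.Results.MP_d8b1b3_co.PartialHadamardTwoThirds
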