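import Pool.Agent.H669.Had.SRG

/-!
# Hadamard matrices with a prescribed submatrix: sharp orders, symmetric matrices, induced
# subgraphs of strongly regular graphs

Let `p` and `q` be orders of Hadamard matrices. Consider block matrices with `p` rows and `q`
columns of blocks, the blocks having `q` rows and `p` columns. There is such a matrix which remains
a Hadamard matrix, of order `p q`, for all `2 ^ (p q)` choices of the signs of its blocks, if and
only if there are Hadamard matrices of the orders `p` and `q`. So every `p × q` sign matrix is a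
submatrix of a Hadamard matrix of order `p q`; this order is sharp, even for the sign matrices with
only `q - 1` columns. Symmetric sign matrices of order `n` are principal submatrices of symmetric
Hadamard matrices of order `n ^ 2`, which is sharp too; a constant diagonal can be kept constant.
Hence every graph with `n - 1` vertices is an induced subgraph of a strongly regular graph with the
parameters `(n ^ 2 - 1, n ^ 2 / 2, n ^ 2 / 4, n ^ 2 / 4)`. For all large `p`, `q`, `n`, without any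
divisibility, all this holds with orders at most `(p + log log p) (q + log log q)` and
`(n + log log n) ^ 2`, so that the orders needed in the worst case are `(1 + o(1)) p q` and
`(1 + o(1)) n ^ 2`.
-/

namespace Pool.Agent.Results.MP_d8b1b3_co.PrescribedSubmatrix

open Pool.Agent.H669.Had

theorem even_of_order {q : ℕ} (hq : 1 < q) (h : Order q) : Even q := by
  obtain ⟨H, hH⟩ := h
  have h1 := rows hH ⟨0, by omega⟩ ⟨1, hq⟩
  rw [if_neg (by simp)] at h1
  have h2 : ∀ j, ∃ k : ℤ, H ⟨0, by omega⟩ j * H ⟨1, hq⟩ j = 1 + 2 * k := by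
    intro j
    rcases sign_mul (hH.1 ⟨0, by omega⟩ j) (hH.1 ⟨1, hq⟩ j) with h | h
    · exact ⟨0, by rw [h]; norm_num⟩
    · exact ⟨-1, by rw [h]; norm_num⟩
  choose k hk using h2
  rw [Finset.sum_congr rfl fun j _ => hk j, Finset.sum_add_distrib, ← Finset.mul_sum] at h1
  simp only [Finset.sum_const, Finset.card_univ, Fintype.card_fin, nsmul_eq_mul, mul_one] at h1
  rw [Nat.even_iff]
  omega

/-- **Hadamard matrices with a prescribed submatrix.** -/
theorem result :
    -- (1) freely signable block matrices exist exactly for the orders of Hadamard matrices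
    (∀ p q : ℕ, 0 < p → 0 < q →
      ((Order p ∧ Order q) ↔
        ∃ B : Matrix (Fin p × Fin q) (Fin q × Fin p) ℤ, FreelySignable B)) ∧
    -- (2) the sharp orders for the formats `p × q` and `p × (q - 1)`
    (∀ p q : ℕ, 0 < p → 0 < q → Order p → Order q →
      (∀ A : Matrix (Fin p) (Fin q) ℤ, IsSign A → Embeds A (p * q)) ∧
      IsLeast {N : ℕ | ∀ A : Matrix (Fin p) (Fin q) ℤ, IsSign A → ∃ M ≤ N, Embeds A M}
        (p * q) ∧
      (2 < q → IsLeast {N : ℕ | ∀ A : Matrix (Fin p) (Fin (q - 1)) ℤ, IsSign A →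
        ∃ M ≤ N, Embeds A M} (p * q))) ∧
    -- (3) all large formats
    (∃ n₀ : ℕ, ∀ p q : ℕ, n₀ ≤ p → n₀ ≤ q → ∀ A : Matrix (Fin p) (Fin q) ℤ, IsSign A →
      ∃ N : ℕ, (N : ℝ) ≤ (p + Real.log (Real.log p)) * (q + Real.log (Real.log q)) ∧
        Embeds A N) ∧
    (∀ p q N : ℕ, 0 < p → 0 < q → Embeds (fun (_ : Fin p) (_ : Fin q) => (1 : ℤ)) N →
      p * q ≤ N ∧ (1 < q → Odd q → p * (q + 1) ≤ N)) ∧
    -- (4) symmetric matrices
    (∀ n : ℕ, 0 < n → Order n →
      (∀ A : Matrix (Fin n) (Fin n) ℤ, IsSign A → A.transpose = A → EmbedsSymm A (n ^ 2)) ∧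
      IsLeast {N : ℕ | ∀ A : Matrix (Fin n) (Fin n) ℤ, IsSign A → A.transpose = A →
        ∃ M ≤ N, EmbedsSymm A M} (n ^ 2)) ∧
    (∃ n₀ : ℕ, ∀ n : ℕ, n₀ ≤ n → ∀ A : Matrix (Fin n) (Fin n) ℤ, IsSign A → A.transpose = A →
      ∃ N : ℕ, (N : ℝ) ≤ (n + Real.log (Real.log n)) ^ 2 ∧ EmbedsSymm A N) ∧
    -- (5) strongly regular graphs
    (∀ n : ℕ, Order (n + 1) → ∀ G : SimpleGraph (Fin n), InSRG G ((n + 1) ^ 2)) ∧
    (∃ n₀ : ℕ, ∀ n : ℕ, n₀ ≤ n → ∀ G : SimpleGraph (Fin n), ∃ N : ℕ,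
      (N : ℝ) ≤ ((n + 1 : ℕ) + Real.log (Real.log (n + 1 : ℕ))) ^ 2 ∧ InSRG G N) := by
  have hsymm : ∃ n₀ : ℕ, ∀ n : ℕ, n₀ ≤ n → ∀ A : Matrix (Fin n) (Fin n) ℤ, IsSign A →
      A.transpose = A →
      ∃ N : ℕ, (N : ℝ) ≤ (n + Real.log (Real.log n)) ^ 2 ∧ EmbedsSymm A N := by
    obtain ⟨n₀, h⟩ := near
    refine ⟨max n₀ 1, fun n hn A hA hs => ?_⟩
    obtain ⟨n', hn', hn2, ho⟩ := h n (le_trans (le_max_left _ _) hn)
    have hn1 : 0 < n := lt_of_lt_of_le Nat.one_pos (le_trans (le_max_right _ _) hn)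
    obtain ⟨A', hA', hs', hAA', hd⟩ := exists_extension_symm hn' hn1 hA hs
    obtain ⟨H, hH, hHs, ⟨r, hr⟩, hHd⟩ :=
      embedsSymm_of_order (lt_of_lt_of_le hn1 hn') ho hA' hs'
    refine ⟨n' * n', ?_, H, hH, hHs, ⟨(Fin.castLEEmb hn').trans r, fun i j => ?_⟩,
      fun ε hε => hHd ε (hd ε hε)⟩
    · push_cast
      have h1 : (0 : ℝ) ≤ (n' : ℝ) := by positivity
      nlinarith
    · simp [hr, hAA']
  refine ⟨fun p q hp hq => ⟨fun ⟨⟨L, hL⟩, ⟨K, hK⟩⟩ => ⟨_, freelySignable_of_orders hL hK⟩,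
    fun ⟨B, hB⟩ => orders_of_freelySignable hp hq hB⟩, ?_, ?_, fun p q N hp hq h =>
    ⟨lower hp hq h, fun h1 h2 => lower_odd h1 h2 h⟩, ?_, hsymm, ?_, ?_⟩
  · intro p q hp hq hop hoq
    refine ⟨fun A hA => embeds_of_orders hp hq hop hoq hA,
      ⟨fun A hA => ⟨_, le_rfl, embeds_of_orders hp hq hop hoq hA⟩, fun N hN => ?_⟩,
      fun hq2 => ⟨fun A hA => ?_, fun N hN => ?_⟩⟩
    · obtain ⟨M, hM, h⟩ := hN _ (fun _ _ => Or.inl rfl)
      exact (lower hp hq h).trans hM
    · obtain ⟨A', hA', hAA'⟩ := exists_extension (le_refl p) (Nat.sub_le q 1) hA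
      exact ⟨_, le_rfl, (embeds_of_orders hp hq hop hoq hA').sub
        (Fin.castLEEmb (le_refl p)) (Fin.castLEEmb (Nat.sub_le q 1)) hAA'⟩
    · obtain ⟨M, hM, h⟩ := hN _ (fun _ _ => Or.inl rfl)
      have h1 := even_of_order (by omega) hoq
      have h2 : Odd (q - 1) := Nat.Even.sub_odd (by omega) h1 (by norm_num)
      have h3 := lower_odd (by omega) h2 h
      rw [Nat.sub_add_cancel (by omega)] at h3
      exact h3.trans hM
  · obtain ⟨n₀, h⟩ := near
    refine ⟨max n₀ 1, fun p q hp hq A hA => ?_⟩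
    obtain ⟨p', hp', hp2, hop⟩ := h p (le_trans (le_max_left _ _) hp)
    obtain ⟨q', hq', hq2, hoq⟩ := h q (le_trans (le_max_left _ _) hq)
    have hp1 : 0 < p := lt_of_lt_of_le Nat.one_pos (le_trans (le_max_right _ _) hp)
    have hq1 : 0 < q := lt_of_lt_of_le Nat.one_pos (le_trans (le_max_right _ _) hq)
    obtain ⟨A', hA', hAA'⟩ := exists_extension hp' hq' hA
    refine ⟨p' * q', ?_, (embeds_of_orders (by omega) (by omega) hop hoq hA').sub
      (Fin.castLEEmb hp') (Fin.castLEEmb hq') hAA'⟩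
    push_cast
    have h0 : (0 : ℝ) ≤ (q' : ℝ) := by positivity
    have h1 : (0 : ℝ) ≤ (p' : ℝ) := by positivity
    nlinarith
  · intro n hn0 hn
    have h1 : ∀ A : Matrix (Fin n) (Fin n) ℤ, IsSign A → A.transpose = A →
        EmbedsSymm A (n ^ 2) := by
      intro A hA hs
      rw [pow_two]
      exact embedsSymm_of_order hn0 hn hA hs
    refine ⟨h1, fun A hA hs => ⟨_, le_rfl, h1 A hA hs⟩, fun N hN => ?_⟩
    obtain ⟨M, hM, H, hH, _, ⟨r, hr⟩, _⟩ := hN (fun _ _ => 1) (fun _ _ => Or.inl rfl) rfl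
    have h2 : Embeds (fun (_ : Fin n) (_ : Fin n) => (1 : ℤ)) M := ⟨H, hH, r, r, hr⟩
    rw [pow_two]
    exact (lower hn0 hn0 h2).trans hM
  · intro n hn G
    classical
    obtain ⟨g1, g2, g3, g4, g5⟩ := graphMatrix_spec G
    rw [pow_two]
    exact inSRG_of_embeds (embedsSymm_of_order (Nat.succ_pos n) hn g1 g2) G g3 g4 g5
  · obtain ⟨n₀, h⟩ := hsymm
    refine ⟨n₀, fun n hn G => ?_⟩
    classical
    obtain ⟨g1, g2, g3, g4, g5⟩ := graphMatrix_spec G
    obtain ⟨N, hN, hE⟩ := h (n + 1) (by omega) _ g1 g2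
    exact ⟨N, hN, inSRG_of_embeds hE G g3 g4 g5⟩

end Pool.Agent.Results.MP_d8b1b3_co.PrescribedSubmatrix
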